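import Mathlib
import Pool.Agent.H2.ED.Targets

/-!
# Row FLV: the field of rational functions of an invariant closed subset
-/

set_option autoImplicit false

open MvPolynomial
open Pool.Agent.H18.HIT Pool.Agent.H18.HX Pool.Agent.H18.VZ
open Pool.Agent.H2.ED

namespace Pool.Agent.H65.ED

section general

variable {k : Type} [Field k]

/-- values of forms at proportional points -/
theorem aeval_mul_hom {N : ℕ} {L : Type} [Field L] [Algebra k L] {q : Po N k} {s : ℕ}
    (hq : q.IsHomogeneous s) (a : L) (x : Fin N → L) :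
    aeval (fun i => a * x i) q = a ^ s * aeval x q := by
  rw [aeval_def, aeval_def, eval₂_eq', eval₂_eq', Finset.mul_sum]
  apply Finset.sum_congr rfl
  intro m hm
  have h1 : ∏ i, (a * x i) ^ m i = a ^ s * ∏ i, x i ^ m i := by
    rw [Finset.prod_congr rfl fun i _ => mul_pow a (x i) (m i), Finset.prod_mul_distrib,
      Finset.prod_pow_eq_pow_sum]
    congr 2
    have h2 := hq (mem_support_iff.mp hm)
    rw [Finsupp.weight_apply, Finsupp.sum_fintype _ _ (fun i => by simp)] at h2
    simpa using h2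
  rw [h1]
  ring

/-- the field of the cone over an invariant closed subset -/
theorem ex_cone {N : ℕ} {V : Ideal (Po N k)} {F : Tup N k} (hV : V.IsPrime)
    (hF : ∀ q, aeval F q ∈ V ↔ q ∈ V) :
    ∃ (L : Type) (_ : Field L) (_ : Algebra k L) (x : Fin N → L) (tL : L →ₐ[k] L),
      (∀ q : Po N k, aeval x q = 0 ↔ q ∈ V) ∧ ∀ i, tL (x i) = aeval x (F i) := by
  have hdom : IsDomain (Po N k ⧸ V) := Ideal.Quotient.isDomain _
  let ψ : Po N k →ₐ[k] FractionRing (Po N k ⧸ V) :=
    (IsScalarTower.toAlgHom k (Po N k ⧸ V) (FractionRing (Po N k ⧸ V))).comp (Ideal.Quotient.mkₐ k V)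
  have hψ : ∀ q : Po N k, ψ q = algebraMap (Po N k ⧸ V) (FractionRing (Po N k ⧸ V))
      (Ideal.Quotient.mk _ q) := fun q => rfl
  have hψ0 : ∀ q : Po N k, ψ q = 0 ↔ q ∈ V := by
    intro q
    rw [hψ, map_eq_zero_iff _ (IsFractionRing.injective _ _), Ideal.Quotient.eq_zero_iff_mem]
  have hx : ∀ q : Po N k, aeval (fun i => ψ (X i)) q = ψ q := by
    intro q
    rw [← comp_aeval_apply, aeval_X_left_apply]
  let φ : Po N k →ₐ[k] FractionRing (Po N k ⧸ V) := aeval fun i => ψ (F i)
  have hφ : ∀ q : Po N k, φ q = ψ (aeval F q) := by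
    intro q
    rw [comp_aeval_apply]
  have hkill : ∀ a ∈ V, φ a = 0 := by
    intro a ha
    rw [hφ, hψ0]
    exact (hF a).2 ha
  let g : (Po N k ⧸ V) →ₐ[k] FractionRing (Po N k ⧸ V) := Ideal.Quotient.liftₐ V φ hkill
  have hg : ∀ q : Po N k, g (Ideal.Quotient.mk _ q) = φ q := fun q => rfl
  have hinj : Function.Injective g := by
    rw [injective_iff_map_eq_zero]
    intro a ha
    obtain ⟨q, rfl⟩ := Ideal.Quotient.mk_surjective a
    rw [hg, hφ, hψ0] at ha
    rw [Ideal.Quotient.eq_zero_iff_mem]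
    exact (hF q).1 ha
  refine ⟨FractionRing (Po N k ⧸ V), inferInstance, inferInstance, fun i => ψ (X i),
    IsFractionRing.liftAlgHom hinj, ?_, ?_⟩
  · intro q
    rw [hx, hψ0]
  · intro i
    rw [hx]
    have h1 : (IsFractionRing.liftAlgHom hinj : FractionRing (Po N k ⧸ V) →ₐ[k]
        FractionRing (Po N k ⧸ V)) (algebraMap _ _ (Ideal.Quotient.mk _ (X i))) =
        g (Ideal.Quotient.mk _ (X i)) := IsFractionRing.lift_algebraMap hinj _
    have h2 : g (Ideal.Quotient.mk _ (X i)) = ψ (F i) := by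
      rw [hg]
      show aeval (fun i => ψ (F i)) (X i) = ψ (F i)
      rw [aeval_X]
    exact h1.trans h2

/-- finitely generated fields have finite transcendence degree -/
theorem trdeg_nat {κ : Type} [Field κ] [Algebra k κ] {n : ℕ} (η : Fin n → κ)
    (h : IntermediateField.adjoin k (Set.range η) = ⊤) : ∃ r : ℕ, Algebra.trdeg k κ = r := by
  have hfg : (⊤ : IntermediateField k κ).FG := by
    rw [← h]
    exact IntermediateField.fg_adjoin_of_finite (Set.finite_range η)
  have : FinTrdeg k κ := ⟨⟨⊤, hfg, inferInstance⟩⟩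
  exact Cardinal.lt_aleph0.1 (trdeg_lt_aleph0 k κ)

theorem pf_FLV : T_FLV := by
  intro ν d k _ V F hV hmi hX1 hF hFV
  obtain ⟨L, i1, i2, x, tL, hx, htL⟩ := ex_cone hV hFV
  have hx1 : x 1 ≠ 0 := by
    intro h0
    apply hX1
    rw [← hx, aeval_X]
    exact h0
  let K := IntermediateField.adjoin k (Set.range fun i => x i / x 1)
  let ξ : Fin (ν + 2) → K := fun i => ⟨x i / x 1, IntermediateField.subset_adjoin _ _ ⟨i, rfl⟩⟩
  have hξ : ∀ i, (ξ i : L) = x i / x 1 := fun i => rfl
  have hval : ∀ (s : ℕ) (q : Po (ν + 2) k), q.IsHomogeneous s →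
      ((aeval ξ q : K) : L) = (x 1)⁻¹ ^ s * aeval x q := by
    intro s q hq
    have h1 : ((aeval ξ q : K) : L) = aeval (fun i => (ξ i : L)) q := comp_aeval_apply ξ K.val q
    rw [h1, ← aeval_mul_hom hq]
    congr 2
    funext i
    rw [hξ, div_eq_inv_mul]
  have hone : ξ 1 = 1 := by
    apply Subtype.ext
    rw [hξ, div_self hx1]
    rfl
  have htop : IntermediateField.adjoin k (Set.range ξ) = ⊤ := by
    rw [eq_top_iff]
    rintro ⟨y, hy⟩ -
    induction hy using IntermediateField.adjoin_induction with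
    | mem y hy =>
      obtain ⟨i, rfl⟩ := hy
      have : (⟨x i / x 1, IntermediateField.subset_adjoin _ _ ⟨i, rfl⟩⟩ : K) = ξ i :=
        Subtype.ext (hξ i).symm
      rw [this]
      exact IntermediateField.subset_adjoin _ _ ⟨i, rfl⟩
    | algebraMap c => exact IntermediateField.algebraMap_mem _ c
    | add y z hy hz h1 h2 => exact add_mem h1 h2
    | inv y hy h1 => exact inv_mem h1
    | mul y z hy hz h1 h2 => exact mul_mem h1 h2
  have hiff : ∀ (s : ℕ) (q : Po (ν + 2) k), q.IsHomogeneous s → (aeval ξ q = 0 ↔ q ∈ V) := by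
    intro s q hq
    rw [← hx q]
    have h1 : aeval ξ q = 0 ↔ ((aeval ξ q : K) : L) = 0 := ZeroMemClass.coe_eq_zero.symm
    rw [h1, hval s q hq, mul_eq_zero]
    constructor
    · rintro (h | h)
      · exact absurd h (pow_ne_zero _ (inv_ne_zero hx1))
      · exact h
    · exact Or.inr
  have hF1 : aeval x (F 1) ≠ 0 := by
    intro h0
    have h1 : aeval F (X 1 : Po (ν + 2) k) ∈ V := by
      rw [aeval_X]
      exact (hx _).1 h0
    exact hX1 ((hFV _).1 h1)
  have htx : ∀ i, tL (x i / x 1) = ((aeval ξ (F i) : K) : L) / ((aeval ξ (F 1) : K) : L) := by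
    intro i
    rw [map_div₀, htL, htL, hval d _ (hF i), hval d _ (hF 1),
      mul_div_mul_left _ _ (pow_ne_zero _ (inv_ne_zero hx1))]
  have hmap : K ≤ K.comap tL := by
    show IntermediateField.adjoin k (Set.range fun i => x i / x 1) ≤ _
    rw [IntermediateField.adjoin_le_iff]
    rintro _ ⟨i, rfl⟩
    show tL (x i / x 1) ∈ K
    rw [htx i]
    exact div_mem (aeval ξ (F i) : K).2 (aeval ξ (F 1) : K).2
  let τ : K →ₐ[k] K := AlgHom.codRestrict (tL.comp K.val) K.toSubalgebra (fun y => hmap y.2)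
  have hne : ((aeval ξ (F 1) : K) : L) ≠ 0 := by
    rw [hval d _ (hF 1)]
    exact mul_ne_zero (pow_ne_zero _ (inv_ne_zero hx1)) hF1
  obtain ⟨r, hr⟩ := trdeg_nat ξ htop
  refine ⟨r, K, inferInstance, inferInstance, ξ, τ, ⟨hone, htop, hiff, hr⟩, ?_, ?_⟩
  · intro h0
    apply hne
    rw [h0]
    rfl
  · intro i
    apply Subtype.ext
    have h1 : ((τ (ξ i) * aeval ξ (F 1) : K) : L) = tL (x i / x 1) *
        ((aeval ξ (F 1) : K) : L) := rfl
    rw [h1, htx i, div_mul_cancel₀ _ hne]

end general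

end Pool.Agent.H65.ED
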