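import Mathlib
import Pool.Agent.H65.ED.FLV

/-!
# Row TIV: the degree of the map on a totally invariant closed subset
-/

set_option autoImplicit false

open MvPolynomial
open Pool.Agent.H18.HIT Pool.Agent.H18.HX Pool.Agent.H18.VZ
open Pool.Agent.H2.ED

namespace Pool.Agent.H65.ED

/-- a finitely generated field is finite over its image -/
theorem fin_range {k κ : Type} [Field k] [Field κ] [Algebra k κ] {n : ℕ} (η : Fin n → κ)
    (h : IntermediateField.adjoin k (Set.range η) = ⊤) (τ : κ →ₐ[k] κ) (r : ℕ)
    (hr : Algebra.trdeg k κ = r) : FiniteDimensional τ.fieldRange κ := by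
  have e : κ ≃ₐ[k] τ.fieldRange := AlgEquiv.ofInjectiveField τ
  have h1 : Algebra.trdeg k τ.fieldRange = r := by rw [← hr, e.trdeg_eq]
  have h2 := trdeg_add_eq k τ.fieldRange (A := κ)
  rw [h1, hr] at h2
  have h3 : Algebra.trdeg τ.fieldRange κ = 0 := by
    have h4 : Algebra.trdeg τ.fieldRange κ < Cardinal.aleph0 := by
      refine lt_of_le_of_lt (le_add_left le_rfl : _ ≤ (r : Cardinal) + Algebra.trdeg τ.fieldRange κ) ?_
      rw [h2]
      exact Cardinal.natCast_lt_aleph0
    obtain ⟨m, hm⟩ := Cardinal.lt_aleph0.1 h4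
    rw [hm] at h2 ⊢
    have h5 : r + m = r := by exact_mod_cast h2
    have : m = 0 := by omega
    rw [this, Nat.cast_zero]
  have halg : Algebra.IsAlgebraic τ.fieldRange κ := trdeg_eq_zero_iff.1 h3
  have htop : IntermediateField.adjoin τ.fieldRange (Set.range η) = ⊤ := by
    rw [eq_top_iff]
    intro z _
    have h6 : z ∈ IntermediateField.adjoin k (Set.range η) := by
      rw [h]
      trivial
    have h7 : IntermediateField.adjoin k (Set.range η) ≤
        (IntermediateField.adjoin τ.fieldRange (Set.range η)).restrictScalars k :=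
      IntermediateField.adjoin_le_iff.2 (IntermediateField.subset_adjoin _ _)
    exact h7 h6
  have h8 : FiniteDimensional τ.fieldRange (IntermediateField.adjoin τ.fieldRange (Set.range η)) :=
    IntermediateField.finiteDimensional_adjoin fun x _ => (Algebra.IsAlgebraic.isAlgebraic x).isIntegral
  rw [htop] at h8
  exact LinearEquiv.finiteDimensional (IntermediateField.topEquiv (F := τ.fieldRange) (E := κ)).toLinearEquiv

/-- the cone over the field of rational functions -/
theorem ex_ext {k κ : Type} [Field k] [Field κ] [Algebra k κ] {ν r D : ℕ} {V : Ideal (Po (ν + 2) k)}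
    {T : Tup (ν + 2) k} {η : Fin (ν + 2) → κ} {τ : κ →ₐ[k] κ} (hD : 1 ≤ D)
    (hT : ∀ i, (T i).IsHomogeneous D) (hmi : Hmi V) (hFv : Fv V r T η τ)
    (hfin : FiniteDimensional τ.fieldRange κ) :
    ∃ (L : Type) (_ : Field L) (_ : Algebra k L) (x : Fin (ν + 2) → L) (tL : L →ₐ[k] L),
      (∀ q : Po (ν + 2) k, aeval x q = 0 ↔ q ∈ V) ∧ (∀ i, tL (x i) = aeval x (T i)) ∧
      IntermediateField.adjoin k (Set.range x) = ⊤ ∧ FiniteDimensional tL.fieldRange L ∧
      Module.finrank tL.fieldRange L ≤ Module.finrank τ.fieldRange κ * D := by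
  classical
  set w : κ := aeval η (T 1) with hw
  have hw0 : w ≠ 0 := hFv.ne
  have hη1 : η 1 = 1 := hFv.gv.one
  let L := FractionRing (Polynomial κ)
  let ι : Polynomial κ →ₐ[k] L := IsScalarTower.toAlgHom k (Polynomial κ) L
  have hιinj : Function.Injective ι := IsFractionRing.injective (Polynomial κ) L
  let h : Polynomial κ →ₐ[k] Polynomial κ :=
    ((Polynomial.aeval (Polynomial.C w * Polynomial.X ^ D) : Polynomial κ →ₐ[κ] Polynomial κ).restrictScalars
      k).comp (Polynomial.mapAlgHom τ)
  have hh : ∀ p, h p = (p.map (τ : κ →+* κ)).comp (Polynomial.C w * Polynomial.X ^ D) := fun p => rfl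
  have hhinj : Function.Injective h := by
    rw [injective_iff_map_eq_zero]
    intro p hp
    rw [hh, Polynomial.comp_eq_zero_iff] at hp
    rcases hp with hp | ⟨-, hp⟩
    · exact (Polynomial.map_eq_zero_iff (τ : κ →+* κ).injective).1 hp
    · exfalso
      have h1 := congrArg Polynomial.natDegree hp
      rw [Polynomial.natDegree_C, Polynomial.natDegree_C_mul_X_pow _ _ hw0] at h1
      omega
  let g : Polynomial κ →ₐ[k] L := ι.comp h
  have hginj : Function.Injective g := hιinj.comp hhinj
  let tL : L →ₐ[k] L := IsFractionRing.liftAlgHom hginj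
  have htL : ∀ p, tL (ι p) = ι (h p) := fun p => IsFractionRing.lift_algebraMap hginj p
  let x : Fin (ν + 2) → L := fun i => ι (Polynomial.X) * ι (Polynomial.C (η i))
  have hCη : ∀ q : Po (ν + 2) k, aeval (fun i => ι (Polynomial.C (η i))) q = ι (Polynomial.C (aeval η q)) := by
    intro q
    have h1 := comp_aeval_apply η (ι.comp (Polynomial.CAlgHom : κ →ₐ[k] Polynomial κ)) q
    exact h1.symm
  have hval : ∀ (s : ℕ) (q : Po (ν + 2) k), q.IsHomogeneous s →
      aeval x q = ι (Polynomial.X ^ s * Polynomial.C (aeval η q)) := by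
    intro s q hq
    have h1 := aeval_mul_hom hq (ι Polynomial.X) (fun i => ι (Polynomial.C (η i)))
    rw [hCη, ← map_pow, ← map_mul] at h1
    exact h1
  refine ⟨L, inferInstance, inferInstance, x, tL, ?_, ?_, ?_, ?_⟩
  · intro q
    have h1 : aeval x q = ι (∑ t ∈ Finset.range (q.totalDegree + 1),
        Polynomial.X ^ t * Polynomial.C (aeval η (homogeneousComponent t q))) := by
      conv_lhs => rw [← sum_homogeneousComponent q]
      rw [map_sum, map_sum]
      refine Finset.sum_congr rfl fun t _ => ?_
      exact hval t _ (homogeneousComponent_isHomogeneous t q)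
    rw [h1, map_eq_zero_iff ι hιinj]
    constructor
    · intro h2
      rw [← sum_homogeneousComponent q]
      refine Ideal.sum_mem _ fun t ht => ?_
      rw [← hFv.gv.iff t _ (homogeneousComponent_isHomogeneous t q)]
      have h3 := congrArg (fun p => Polynomial.coeff p t) h2
      simp only [Polynomial.finsetSum_coeff, Polynomial.coeff_X_pow_mul', Polynomial.coeff_zero] at h3
      rw [Finset.sum_eq_single t] at h3
      · rw [if_pos le_rfl, Nat.sub_self, Polynomial.coeff_C_zero] at h3
        exact h3
      · intro b _ hbt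
        by_cases hb : b ≤ t
        · rw [if_pos hb, Polynomial.coeff_C, if_neg (by omega)]
        · rw [if_neg hb]
      · intro hnt
        exact absurd ht hnt
    · intro h2
      refine Finset.sum_eq_zero fun t _ => ?_
      rw [(hFv.gv.iff t _ (homogeneousComponent_isHomogeneous t q)).2 (hmi q h2 t), Polynomial.C_0, mul_zero]
  · intro i
    have e1 : x i = ι (Polynomial.X * Polynomial.C (η i)) := (map_mul ι _ _).symm
    rw [hval D _ (hT i), ← hFv.eq i, e1, htL]
    congr 1
    rw [hh, Polynomial.map_mul, Polynomial.map_X, Polynomial.map_C, Polynomial.mul_comp, Polynomial.X_comp,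
      Polynomial.C_comp, Polynomial.C_mul]
    show Polynomial.C w * Polynomial.X ^ D * Polynomial.C (τ (η i)) = _
    ring
  · set A := IntermediateField.adjoin k (Set.range x) with hA
    have hs : ι Polynomial.X ∈ A := by
      have h1 : x 1 ∈ A := IntermediateField.subset_adjoin _ _ ⟨1, rfl⟩
      have h2 : x 1 = ι Polynomial.X := by
        show ι (Polynomial.X) * ι (Polynomial.C (η 1)) = _
        rw [hη1, Polynomial.C_1, map_one, mul_one]
      rwa [h2] at h1
    have hs0 : ι Polynomial.X ≠ 0 := by
      rw [Ne, map_eq_zero_iff ι hιinj]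
      exact Polynomial.X_ne_zero
    have hC : ∀ a : κ, ι (Polynomial.C a) ∈ A := by
      have h1 : IntermediateField.adjoin k (Set.range η) ≤
          A.comap (ι.comp (Polynomial.CAlgHom : κ →ₐ[k] Polynomial κ)) := by
        rw [IntermediateField.adjoin_le_iff]
        rintro _ ⟨i, rfl⟩
        show ι (Polynomial.C (η i)) ∈ A
        have h2 : x i ∈ A := IntermediateField.subset_adjoin _ _ ⟨i, rfl⟩
        have h3 : ι (Polynomial.C (η i)) = x i / ι Polynomial.X := by
          rw [eq_div_iff hs0, mul_comm]
        rw [h3]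
        exact div_mem h2 hs
      intro a
      have h4 : a ∈ IntermediateField.adjoin k (Set.range η) := by
        rw [hFv.gv.top]
        trivial
      exact h1 h4
    have hp : ∀ p : Polynomial κ, ι p ∈ A := by
      intro p
      induction p using Polynomial.induction_on' with
      | add p q hp hq => rw [map_add]; exact add_mem hp hq
      | monomial n a =>
        rw [← Polynomial.C_mul_X_pow_eq_monomial, map_mul, map_pow]
        exact mul_mem (hC a) (pow_mem hs n)
    rw [eq_top_iff]
    intro z _
    obtain ⟨a, b, -, hz⟩ := IsFractionRing.div_surjective (A := Polynomial κ) z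
    rw [← hz]
    exact div_mem (hp a) (hp b)
  · -- the degree
    let b := Module.finBasis τ.fieldRange κ
    let M : Submodule tL.fieldRange L := Submodule.span tL.fieldRange
      (Set.range fun ij : Fin (Module.finrank τ.fieldRange κ) × Fin D =>
        ι (Polynomial.C (b ij.1) * Polynomial.X ^ (ij.2 : ℕ)))
    have hR : ∀ p : Polynomial κ, ι p ∈ M := by
      intro p
      induction p using Polynomial.induction_on' with
      | add p q hp hq => rw [map_add]; exact M.add_mem hp hq
      | monomial n a =>
        have hn : n = D * (n / D) + n % D := (Nat.div_add_mod n D).symm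
        have hlt : n % D < D := Nat.mod_lt _ hD
        have h1 : a * (w⁻¹) ^ (n / D) = ∑ j, (b.repr (a * (w⁻¹) ^ (n / D)) j : κ) * b j := by
          conv_lhs => rw [← b.sum_repr (a * (w⁻¹) ^ (n / D))]
          rfl
        have hd : ∀ j, ∃ d : κ, τ d = (b.repr (a * (w⁻¹) ^ (n / D)) j : κ) := fun j =>
          (b.repr (a * (w⁻¹) ^ (n / D)) j).2
        choose d hd using hd
        have h2 : Polynomial.monomial n a = ∑ j, h (Polynomial.C (d j) * Polynomial.X ^ (n / D)) *
            (Polynomial.C (b j) * Polynomial.X ^ (n % D)) := by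
          have h3 : ∀ j, h (Polynomial.C (d j) * Polynomial.X ^ (n / D)) *
              (Polynomial.C (b j) * Polynomial.X ^ (n % D)) =
              Polynomial.C (τ (d j) * b j) * (Polynomial.C (w ^ (n / D)) * Polynomial.X ^ n) := by
            intro j
            rw [hh, Polynomial.map_mul, Polynomial.map_pow, Polynomial.map_X, Polynomial.map_C,
              Polynomial.mul_comp, Polynomial.pow_comp, Polynomial.X_comp, Polynomial.C_comp]
            show Polynomial.C (τ (d j)) * (Polynomial.C w * Polynomial.X ^ D) ^ (n / D) * _ = _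
            have hXn : (Polynomial.X : Polynomial κ) ^ n =
                (Polynomial.X ^ D) ^ (n / D) * Polynomial.X ^ (n % D) := by
              rw [← pow_mul, ← pow_add, ← hn]
            rw [hXn, Polynomial.C_mul, Polynomial.C_pow, mul_pow]
            ring
          simp only [h3]
          rw [← Finset.sum_mul, ← map_sum]
          have h4 : ∑ j, τ (d j) * b j = a * (w⁻¹) ^ (n / D) :=
            (Finset.sum_congr rfl fun j _ => by rw [hd]).trans h1.symm
          rw [h4, ← mul_assoc, ← Polynomial.C_mul, mul_assoc a, ← mul_pow, inv_mul_cancel₀ hw0, one_pow, mul_one,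
            Polynomial.C_mul_X_pow_eq_monomial]
        rw [h2, map_sum]
        refine M.sum_mem fun j _ => ?_
        rw [map_mul]
        have h5 : ι (h (Polynomial.C (d j) * Polynomial.X ^ (n / D))) ∈ tL.fieldRange := by
          rw [← htL]
          exact ⟨_, rfl⟩
        have h6 : ι (Polynomial.C (b j) * Polynomial.X ^ (n % D)) ∈ M :=
          Submodule.subset_span ⟨(j, ⟨n % D, hlt⟩), rfl⟩
        exact M.smul_mem (⟨_, h5⟩ : tL.fieldRange) h6
    let B : Subalgebra tL.fieldRange L := Algebra.adjoin tL.fieldRange (Set.range ι)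
    have hBM : Subalgebra.toSubmodule B ≤ M := by
      rw [Algebra.adjoin_eq_span]
      rw [Submodule.span_le]
      intro z hz
      have h7 : Submonoid.closure (Set.range ι) ≤ MonoidHom.mrange (ι : Polynomial κ →* L) := by
        rw [Submonoid.closure_le]
        rintro _ ⟨p, rfl⟩
        exact ⟨p, rfl⟩
      obtain ⟨p, rfl⟩ := h7 hz
      exact hR p
    have hMfin : FiniteDimensional tL.fieldRange M := FiniteDimensional.span_of_finite _ (Set.finite_range _)
    have hBfin : FiniteDimensional tL.fieldRange B :=
      Submodule.finiteDimensional_of_le (S₂ := M) (S₁ := Subalgebra.toSubmodule B) hBM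
    have hall : ∀ z : L, z ∈ B := by
      intro z
      obtain ⟨a, c, -, hz⟩ := IsFractionRing.div_surjective (A := Polynomial κ) z
      rw [← hz]
      have ha : ι a ∈ B := Algebra.subset_adjoin ⟨a, rfl⟩
      have hc : ι c ∈ B := Algebra.subset_adjoin ⟨c, rfl⟩
      have hcinv : (ι c)⁻¹ ∈ B := by
        have h8 : IsAlgebraic tL.fieldRange (⟨ι c, hc⟩ : B) := Algebra.IsAlgebraic.isAlgebraic _
        have h9 : IsAlgebraic tL.fieldRange ((⟨ι c, hc⟩ : B) : L) := h8.algebraMap
        exact B.inv_mem_of_algebraic (x := (⟨ι c, hc⟩ : B)) h9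
      rw [div_eq_mul_inv]
      exact B.mul_mem ha hcinv
    have hMtop : M = ⊤ := by
      rw [eq_top_iff]
      intro z _
      exact hBM (hall z)
    have hfinL : FiniteDimensional tL.fieldRange L := by
      rw [hMtop] at hMfin
      exact LinearEquiv.finiteDimensional (Submodule.topEquiv (R := tL.fieldRange) (M := L))
    refine ⟨hfinL, ?_⟩
    have h10 : Module.finrank tL.fieldRange M ≤
        Fintype.card (Fin (Module.finrank τ.fieldRange κ) × Fin D) := finrank_range_le_card _
    rw [hMtop, finrank_top, Fintype.card_prod, Fintype.card_fin, Fintype.card_fin] at h10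
    exact h10

theorem pf_TIV : T_TIV := by
  intro ν r D E e k κ _ _ _ _ _ P θ T V η τ hD hT hV hmi hTV hTot hFv hDe
  have hfin : FiniteDimensional τ.fieldRange κ := fin_range η hFv.gv.top τ r hFv.gv.trd
  obtain ⟨L, _, _, x, tL, hx, htx, htop, hLfin, hLrank⟩ := ex_ext hD hT hmi hFv hfin
  have hfrac : ∀ l : L, ∃ a b : Po (ν + 2) k, aeval x b ≠ 0 ∧ l * aeval x b = aeval x a := by
    intro l
    have h1 : l ∈ IntermediateField.adjoin k (Set.range x) := by
      rw [htop]
      trivial
    obtain ⟨a, b, hab⟩ := (IntermediateField.mem_adjoin_range_iff k x l).1 h1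
    by_cases hb : aeval x b = 0
    · rw [hb, div_zero] at hab
      refine ⟨0, 1, ?_, ?_⟩
      · rw [map_one]
        exact one_ne_zero
      · rw [hab, map_zero, zero_mul]
    · refine ⟨a, b, hb, ?_⟩
      rw [hab, div_mul_cancel₀ _ hb]
  have htc : ∀ c : Po (ν + 2) k, tL (aeval x c) = aeval x (aeval T c) := by
    intro c
    rw [comp_aeval_apply x tL c, comp_aeval_apply T (aeval x) c]
    have e1 : (fun i => tL (x i)) = fun i => aeval x (T i) := funext htx
    rw [e1]
  have hind : LinearIndependent tL.fieldRange (fun i : Fin E => (aeval x θ) ^ (i : ℕ)) := by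
    rw [Fintype.linearIndependent_iff]
    intro g hg
    have hgl : ∀ i, ∃ l : L, tL l = (g i : L) := fun i => (g i).2
    choose l hl using hgl
    choose a b hb hab using fun i => hfrac (l i)
    -- common denominator
    set Q : Po (ν + 2) k := ∏ j, b j with hQ
    have hQ0 : aeval x Q ≠ 0 := by
      rw [hQ, map_prod]
      exact Finset.prod_ne_zero_iff.2 fun j _ => hb j
    have hc : ∀ i, ∃ c : Po (ν + 2) k, l i * aeval x Q = aeval x c := by
      intro i
      refine ⟨a i * ∏ j ∈ Finset.univ.erase i, b j, ?_⟩
      rw [hQ, ← Finset.mul_prod_erase _ _ (Finset.mem_univ i), map_mul, ← mul_assoc, hab, map_mul]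
    choose c hc using hc
    have h1 : aeval x (∑ i : Fin E, θ ^ (i : ℕ) * aeval T (c i)) = 0 := by
      rw [map_sum]
      have h2 : ∀ i : Fin E, aeval x (θ ^ (i : ℕ) * aeval T (c i)) =
          tL (aeval x Q) * (g i • (aeval x θ) ^ (i : ℕ)) := by
        intro i
        rw [map_mul, map_pow, ← htc, ← hc, map_mul, hl]
        show _ = _ * ((g i : L) * _)
        ring
      simp only [h2]
      rw [← Finset.mul_sum, hg, mul_zero]
    have h3 := hTot.ind c ((hx _).1 h1)
    intro i
    have h4 := (hx _).2 (h3 i)
    rw [← hc] at h4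
    have h5 : l i = 0 := (mul_eq_zero.1 h4).resolve_right hQ0
    apply Subtype.ext
    rw [← hl, h5, map_zero]
    rfl
  have h1 := hind.fintype_card_le_finrank
  rw [Fintype.card_fin] at h1
  have h2 : D * e ≤ Module.finrank τ.fieldRange κ * D := hDe.trans (h1.trans hLrank)
  rw [mul_comm] at h2
  exact Nat.le_of_mul_le_mul_right h2 hD

end Pool.Agent.H65.ED
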